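import Pool.Agent.N115.AN.Gal
import Pool.Agent.N115.IM.Down
import Pool.Agent.N813.IM.Images

/-!
Algebroid points: the main theorem, from its parts.
-/

set_option autoImplicit false
set_option linter.unusedSectionVars false

open FF Pool.Agent.W603.LV Pool.Agent.W602.GT Pool.Agent.Y190.BV Polynomial
open Pool.Agent.Y190.AN (MK exD Minf)

namespace Pool.Agent.N115.AN

section

variable {k K M : Type} [Field k] [Field K] [Field M] [Algebra k K] [Algebra k M] [Algebra K M]
  [IsScalarTower k K M] [CharZero k] [IsAlgClosed k] [FiniteDimensional K M] [IsGalois K M]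

/-- the conjugates of a polynomial and of its values -/
theorem conj_val {N m : ℕ} {a : Fin (N + 1) → k} {H : M[X]} {y : Fin (N + 1) → M}
    (hy : ∀ i, y i ^ m = H.eval (algebraMap k M (a i))) (g : M ≃ₐ[K] M) (i : Fin (N + 1)) :
    g (y i) ^ m = (H.map (g : M →+* M)).eval (algebraMap k M (a i)) := by
  have h1 : algebraMap k M (a i) = (g : M →+* M) (algebraMap k M (a i)) := by
    rw [IsScalarTower.algebraMap_apply k K M]
    exact (g.commutes _).symm
  rw [h1, Polynomial.eval_map, Polynomial.eval₂_hom, ← hy i, map_pow]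
  rfl

/-- the conjugates of `f` are regular -/
theorem conj_ge (hA : LocA) {N m : ℕ} (hm : 1 ≤ m) {a : Fin (N + 1) → k} {F : K[X]} (hF : F ≠ 0)
    (hFc : ∀ c : k, F.eval (algebraMap k K c) ≠ 0) {H : M[X]} {y : Fin (N + 1) → M}
    (hy : ∀ i, y i ^ m = H.eval (algebraMap k M (a i))) {i0 : Fin (N + 1)} (hi0 : y i0 = 1)
    (hfac : ∀ g : M ≃ₐ[K] M, ∃ u T T' e, Fac (k := k) m (F.map (algebraMap K M))
      (H.map (g : M →+* M)) u T T' e) (lam : Fin (N + 1) → k) {P : Place k K} {W : Place k M}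
    {e : ℕ} (hW : Over W P e) (g : M ≃ₐ[K] M) :
    Ge W (e * cnt P F) (g (algebraMap K M (F.eval (algebraMap k K (a i0))) *
      ∑ i, algebraMap k M (lam i) * y i)) := by
  obtain ⟨u, T, T', ee, hf⟩ := hfac g
  have hF' : F.map (algebraMap K M) ≠ 0 :=
    (Polynomial.map_ne_zero_iff (algebraMap K M).injective).2 hF
  have hFc' : ∀ c : k, (F.map (algebraMap K M)).eval (algebraMap k M c) ≠ 0 := by
    intro c
    rw [eval_map_const]
    exact (_root_.map_ne_zero _).2 (hFc c)
  have h1 := hA k M m N hm a (F.map (algebraMap K M)) (H.map (g : M →+* M)) u T T' ee hf hF' hFc'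
    (fun i => g (y i)) (conj_val hy g) i0 (by simp only [hi0, map_one]) W
  have h2 : g (algebraMap K M (F.eval (algebraMap k K (a i0))) *
      ∑ i, algebraMap k M (lam i) * y i) = ∑ i, algebraMap k M (lam i) *
        ((F.map (algebraMap K M)).eval (algebraMap k M (a i0)) * g (y i)) := by
    rw [map_mul, map_sum, g.commutes, Finset.mul_sum]
    refine Finset.sum_congr rfl fun i _ => ?_
    rw [map_mul, eval_map_const, IsScalarTower.algebraMap_apply k K M (lam i), g.commutes]
    ring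
  rw [h2, ← cnt_map hW hF]
  refine Ge.sum _ _ fun i _ => ?_
  have h3 := (Ge.const (P := W) (lam i)).mul (h1 i)
  rwa [zero_add] at h3

/-- contacts of order one are impossible at unramified places -/
theorem no_one (hB : LocB) {n N m : ℕ} (hm : 2 ≤ m) (hnN : n ≤ N) {a : Fin (N + 1) → k}
    (ha : Function.Injective a) {F : K[X]} (hF : F ≠ 0)
    (hFc : ∀ c : k, F.eval (algebraMap k K c) ≠ 0) {H : M[X]} (hH : H ≠ 0)
    (hdeg : H.natDegree ≤ n) {y : Fin (N + 1) → M}
    (hy : ∀ i, y i ^ m = H.eval (algebraMap k M (a i)))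
    (hfac : ∀ g : M ≃ₐ[K] M, ∃ u T T' e, Fac (k := k) m (F.map (algebraMap K M))
      (H.map (g : M →+* M)) u T T' e)
    (hirr : ∀ p : M[X], Irreducible p → p ∣ F.map (algebraMap K M) →
        ∃ g : M ≃ₐ[K] M, p ∣ H.map (g : M →+* M))
    {P : Place k K} {W : Place k M} (hW : Over W P 1) {i : Fin (N + 1)} (hi : y i ≠ 0) :
    ct P F (a i) ≠ 1 := by
  classical
  intro h1
  have hinf : Infinite k := IsAlgClosed.instInfinite
  set FM := F.map (algebraMap K M) with hFM
  have hF' : FM ≠ 0 := (Polynomial.map_ne_zero_iff (algebraMap K M).injective).2 hF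
  have hFc' : ∀ c : k, FM.eval (algebraMap k M c) ≠ 0 := by
    intro c
    rw [hFM, eval_map_const]
    exact (_root_.map_ne_zero _).2 (hFc c)
  have h2 : ct W FM (a i) = 1 := by
    rw [hFM, ct_map hW hF, h1]
    norm_num
  have hchM : CharZero M := charZero_of_injective_algebraMap (algebraMap k M).injective
  obtain ⟨T0, e0, u0, hu0, hT0, hFT, -⟩ := factor hF'
  have hpe : ∀ p ∈ T0, p.eval (algebraMap k M (a i)) ≠ 0 := by
    intro p hp h0
    apply hFc' (a i)
    obtain ⟨r, hr⟩ := (hT0 p hp).2.2.1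
    rw [hr, Polynomial.eval_mul, h0, zero_mul]
  have h3 : ct W FM (a i) = ∑ p ∈ T0, (e0 p : ℤ) * ct W p (a i) := by
    have hprod : (∏ p ∈ T0, p ^ e0 p).eval (algebraMap k M (a i)) ≠ 0 := by
      rw [Polynomial.eval_prod]
      refine Finset.prod_ne_zero_iff.2 fun p hp => ?_
      rw [Polynomial.eval_pow]
      exact pow_ne_zero _ (hpe p hp)
    conv_lhs => rw [hFT]
    rw [ct_mul W (by rw [Polynomial.eval_C]; exact hu0) hprod, ct_C W hu0, zero_add,
      ct_prod W T0 _ fun p hp => by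
        rw [Polynomial.eval_pow]
        exact pow_ne_zero _ (hpe p hp)]
    exact Finset.sum_congr rfl fun p hp => ct_pow W (hpe p hp) _
  obtain ⟨p, hp, hp1⟩ : ∃ p ∈ T0, 1 ≤ ct W p (a i) := by
    by_contra hcon
    push Not at hcon
    have h4 : ∑ p ∈ T0, (e0 p : ℤ) * ct W p (a i) = 0 := by
      refine Finset.sum_eq_zero fun p hp => ?_
      have h5 := ct_nonneg W (hpe p hp)
      have h6 := hcon p hp
      have h7 : ct W p (a i) = 0 := by omega
      rw [h7, mul_zero]
    rw [h3, h4] at h2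
    exact zero_ne_one h2
  obtain ⟨hpi, hpm, hpF, -, -⟩ := hT0 p hp
  obtain ⟨g, hg⟩ := hirr p hpi hpF
  obtain ⟨u, T, T', e, hf⟩ := hfac g
  have hpT : p ∈ T := by
    rw [hf.eq] at hg
    rcases hpi.prime.dvd_or_dvd hg with h4 | h4
    · exact absurd (isUnit_of_dvd_unit h4 (Polynomial.isUnit_C.2 (IsUnit.mk0 _ hf.unit)))
        hpi.not_isUnit
    rcases hpi.prime.dvd_or_dvd h4 with h4 | h4
    · obtain ⟨q, hq, hpq⟩ := (hpi.prime.dvd_finsetProd_iff _).1 h4
      have h5 := hpi.prime.dvd_of_dvd_pow hpq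
      have h6 := (hf.irr q hq)
      have h7 : Associated p q := hpi.associated_of_dvd h6.1 h5
      rw [Polynomial.eq_of_monic_of_associated hpm h6.2.1 h7]
      exact hq
    · exfalso
      obtain ⟨q, hq, hpq⟩ := (hpi.prime.dvd_finsetProd_iff _).1 h4
      have h5 := hpi.prime.dvd_of_dvd_pow hpq
      obtain ⟨c, rfl⟩ := hf.cst q hq
      have h7 : Associated p (X - C (algebraMap k M c)) :=
        hpi.associated_of_dvd (Polynomial.irreducible_X_sub_C _) h5
      have h8 := Polynomial.eq_of_monic_of_associated hpm (Polynomial.monic_X_sub_C _) h7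
      rw [h8] at hpF
      exact hFc' c (Polynomial.dvd_iff_isRoot.1 hpF)
  have hTe : ∀ q ∈ T, q.eval (algebraMap k M (a i)) ≠ 0 := fun q hq => hf.nroot q hq _
  have h4 : ct W (∏ q ∈ T, q) (a i) = ∑ q ∈ T, ct W q (a i) := ct_prod W T _ hTe
  have h5 : ct W p (a i) ≤ ct W (∏ q ∈ T, q) (a i) := by
    rw [h4]
    exact Finset.single_le_sum (f := fun q => ct W q (a i)) (fun q hq => ct_nonneg W (hTe q hq))
      hpT
  have h6 : ct W (∏ q ∈ T, q) (a i) ≤ 1 := by
    obtain ⟨B, hB'⟩ := hf.dvd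
    have hBe : B.eval (algebraMap k M (a i)) ≠ 0 := by
      intro h0
      apply hFc' (a i)
      rw [hB', Polynomial.eval_mul, h0, mul_zero]
    have hTe' : (∏ q ∈ T, q).eval (algebraMap k M (a i)) ≠ 0 := by
      rw [Polynomial.eval_prod]
      exact Finset.prod_ne_zero_iff.2 hTe
    have h7 := ct_mul W hTe' hBe
    rw [← hB', h2] at h7
    have h8 := ct_nonneg W hBe
    omega
  refine hB k M m n N hm hnN a ha FM (H.map (g : M →+* M)) u T T' e hf
    ((Polynomial.map_ne_zero_iff (g : M →+* M).injective).2 hH)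
    (Polynomial.natDegree_map_le.trans hdeg) (fun i => g (y i)) (conj_val hy g) W i
    ((_root_.map_ne_zero g).2 hi) ?_
  omega

end

/-- **The Galois case.** -/
theorem gal_pow (h1 : RatiosMinf) (hA : LocA) (hB : LocB) (hC : LocC) (hG : GrowthLemma)
    (hF : ConjF) (hM : ConclMinf) {r0 : ℝ} {hr0 : 0 < r0} {M : Type} [Field M]
    [Algebra (MK (exD r0 hr0)) M] [Algebra ℂ M] [IsScalarTower ℂ (MK (exD r0 hr0)) M]
    [FiniteDimensional (MK (exD r0 hr0)) M] [IsGalois (MK (exD r0 hr0)) M] {r n m N : ℕ}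
    (hr : 1 ≤ r) (hm : 2 ≤ m) (hN : (r * (r - 1) + 4) * (r * n) < N + 1)
    {a : Fin (N + 1) → ℂ} (ha : Function.Injective a) {H : M[X]} (hH : H ≠ 0)
    (hdeg : H.natDegree ≤ n) {y : Fin (N + 1) → M}
    (hy : ∀ i, y i ^ m = H.eval (algebraMap ℂ M (a i))) {i0 : Fin (N + 1)} (hi0 : y i0 = 1)
    (hmult : ∀ p : M[X], Irreducible p → ¬ p ^ m ∣ H) {lam : Fin (N + 1) → ℂ}
    (hgen : ∀ g h : M ≃ₐ[MK (exD r0 hr0)] M, g (∑ i, algebraMap ℂ M (lam i) * y i) =
      h (∑ i, algebraMap ℂ M (lam i) * y i) → ∀ i, g (y i) = h (y i))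
    (hfaith : ∀ g : M ≃ₐ[MK (exD r0 hr0)] M, (∀ h : M ≃ₐ[MK (exD r0 hr0)] M,
      g (h (∑ i, algebraMap ℂ M (lam i) * y i)) = h (∑ i, algebraMap ℂ M (lam i) * y i)) → g = 1)
    (hcard : (Set.range fun g : M ≃ₐ[MK (exD r0 hr0)] M =>
      g (∑ i, algebraMap ℂ M (lam i) * y i)).ncard ≤ r) (i : Fin (N + 1)) :
    IsAlgebraic (Minf r0 hr0) (y i) := by
  classical
  set f0 : M := ∑ i, algebraMap ℂ M (lam i) * y i with hf0
  have hnN : n ≤ N := by
    have h2 : 1 * (1 * n) ≤ (r * (r - 1) + 4) * (r * n) :=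
      Nat.mul_le_mul (by omega) (Nat.mul_le_mul_right _ hr)
    omega
  have hfinG : Finite (M ≃ₐ[MK (exD r0 hr0)] M) := inferInstance
  have hcard' : (Set.range fun (g : M ≃ₐ[MK (exD r0 hr0)] M) (i : Fin (N + 1)) =>
      g (y i)).ncard ≤ r := by
    refine le_trans ?_ hcard
    refine Set.ncard_le_ncard_of_injOn (fun v => ∑ i, algebraMap ℂ M (lam i) * v i) ?_ ?_
      (Set.finite_range _)
    · rintro _ ⟨g, rfl⟩
      refine ⟨g, ?_⟩
      simp only [hf0, map_sum, map_mul]
      refine Finset.sum_congr rfl fun i _ => ?_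
      rw [IsScalarTower.algebraMap_apply ℂ (MK (exD r0 hr0)) M, g.commutes]
    · rintro _ ⟨g, rfl⟩ _ ⟨h, rfl⟩ hgh
      funext i
      refine hgen g h ?_ i
      simp only [hf0, map_sum, map_mul]
      simp only at hgh
      have h3 : ∀ (g : M ≃ₐ[MK (exD r0 hr0)] M) (c : ℂ), g (algebraMap ℂ M c) =
          algebraMap ℂ M c := fun g c => by
        rw [IsScalarTower.algebraMap_apply ℂ (MK (exD r0 hr0)) M, g.commutes]
      simp only [h3]
      exact hgh
  obtain ⟨F, hFm, hFsq, hFc, hFdeg, hfac, hirr⟩ := hF ℂ (MK (exD r0 hr0)) M r n m N a ha hnN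
    (by omega) H y hH hdeg hy hmult hcard'
  have hF0 : F ≠ 0 := hFm.ne_zero
  obtain ⟨u1, T1, T1', e1, hf1⟩ := hfac 1
  have hmap1 : H.map ((1 : M ≃ₐ[MK (exD r0 hr0)] M) : M →+* M) = H := by
    have : ((1 : M ≃ₐ[MK (exD r0 hr0)] M) : M →+* M) = RingHom.id M := rfl
    rw [this, Polynomial.map_id]
  rw [hmap1] at hf1
  by_cases hd : F.natDegree = 0
  · have hF1 := Polynomial.eq_one_of_monic_natDegree_zero hFm hd
    refine hM r0 hr0 M m N 0 a (fun _ => a i0) (by omega) (fun x y _ => Subsingleton.elim (α := Fin 1) x y) F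
      hFm (by omega) hFc (fun j => ?_) H u1 T1 T1' e1 hf1 y hy i0 hi0 i
    rw [hF1]
    simp only [Polynomial.eval_one, div_one]
    exact (Minf r0 hr0).one_mem
  -- the good nodes
  have hI0 : (Finset.univ.filter fun i => y i = 0).card = Nat.card {i // y i = 0} := by
    rw [Nat.card_eq_fintype_card, Fintype.card_subtype]
  let I1 : Finset (Fin (N + 1)) := Finset.univ.filter fun i => y i ≠ 0
  have hI : I1.card + (Finset.univ.filter fun i => y i = 0).card = N + 1 := by
    have := Finset.card_filter_add_card_filter_not (s := (Finset.univ : Finset (Fin (N + 1))))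
      (fun i => y i ≠ 0)
    simp only [not_not, Finset.card_univ, Fintype.card_fin] at this
    exact this
  have hi0I : i0 ∈ I1 := by
    refine Finset.mem_filter.2 ⟨Finset.mem_univ _, ?_⟩
    rw [hi0]
    exact one_ne_zero
  have hI1pos : 0 < I1.card := Finset.card_pos.2 ⟨i0, hi0I⟩
  obtain ⟨q, hq⟩ : ∃ q, I1.card = q + 1 := ⟨I1.card - 1, by omega⟩
  let ee : Fin (q + 1) ≃ I1 := (Fintype.equivFinOfCardEq (by rw [Fintype.card_coe]; exact hq)).symm
  let a' : Fin (q + 1) → ℂ := fun j => a (ee j)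
  have ha' : Function.Injective a' := fun i j hij => ee.injective (Subtype.ext (ha hij))
  have hee : ∀ j, y (ee j) ≠ 0 := fun j => (Finset.mem_filter.1 (ee j).2).2
  let j0 : Fin (q + 1) := ee.symm ⟨i0, hi0I⟩
  have hj0 : a i0 = a' j0 := by
    change a i0 = a (ee (ee.symm ⟨i0, hi0I⟩))
    rw [Equiv.apply_symm_apply]
  -- the discriminant
  set f : M := algebraMap (MK (exD r0 hr0)) M (F.eval (algebraMap ℂ (MK (exD r0 hr0)) (a i0))) * f0
    with hf
  have hc0 : algebraMap (MK (exD r0 hr0)) M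
      (F.eval (algebraMap ℂ (MK (exD r0 hr0)) (a i0))) ≠ 0 := (_root_.map_ne_zero _).2 (hFc _)
  obtain ⟨b, δ, hdisc, hδ, hb⟩ := exists_disc (K := MK (exD r0 hr0)) f
  have hrange : (Set.range fun g : M ≃ₐ[MK (exD r0 hr0)] M => g f).ncard ≤ r := by
    have h2 : (Set.range fun g : M ≃ₐ[MK (exD r0 hr0)] M => g f) =
        (fun x => algebraMap (MK (exD r0 hr0)) M
          (F.eval (algebraMap ℂ (MK (exD r0 hr0)) (a i0))) * x) ''
          (Set.range fun g : M ≃ₐ[MK (exD r0 hr0)] M => g f0) := by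
      rw [← Set.range_comp]
      congr 1
      funext g
      change g f = _ * g f0
      rw [hf, map_mul, g.commutes]
    rw [h2]
    exact (Set.ncard_image_le (Set.finite_range _)).trans hcard
  have hbr : b ≤ r * (r - 1) := by
    rw [hb]
    exact Nat.mul_le_mul hrange (Nat.sub_le_sub_right hrange 1)
  have hfaith' : ∀ g : M ≃ₐ[MK (exD r0 hr0)] M,
      (∀ h : M ≃ₐ[MK (exD r0 hr0)] M, g (h f) = h f) → g = 1 := by
    intro g hg
    apply hfaith g
    intro h
    have h2 := hg h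
    rw [hf, map_mul, map_mul, h.commutes, g.commutes] at h2
    exact mul_left_cancel₀ hc0 h2
  have hloc := hC ℂ (MK (exD r0 hr0)) M f b δ hdisc hfaith'
  have hge : ∀ (P : Place ℂ (MK (exD r0 hr0))) (W : Place ℂ M) (e : ℕ), Over W P e →
      ∀ g : M ≃ₐ[MK (exD r0 hr0)] M, Ge W (e * cnt P F) (g f) := fun P W e hW g =>
    conj_ge hA (by omega) hF0 hFc hy hi0 hfac lam hW g
  -- the numbers
  have hnum : (4 + b) * F.natDegree < q + 1 := by
    rw [← hI0] at hFdeg
    set z := (Finset.univ.filter fun i => y i = 0).card with hz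
    have h2 : (4 + b) * F.natDegree ≤ (4 + r * (r - 1)) * F.natDegree :=
      Nat.mul_le_mul_right _ (by omega)
    have h3 : (4 + r * (r - 1)) * (F.natDegree + r * z) ≤ (4 + r * (r - 1)) * (r * n) :=
      Nat.mul_le_mul_left _ hFdeg
    have h4 : z ≤ (4 + r * (r - 1)) * (r * z) := by
      have : 1 * (1 * z) ≤ (4 + r * (r - 1)) * (r * z) :=
        Nat.mul_le_mul (by omega) (Nat.mul_le_mul_right _ hr)
      omega
    have h5 : (4 + r * (r - 1)) * (F.natDegree + r * z) =
        (4 + r * (r - 1)) * F.natDegree + (4 + r * (r - 1)) * (r * z) := by ring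
    have h6 : (4 + r * (r - 1)) * (r * n) = (r * (r - 1) + 4) * (r * n) := by ring
    omega
  have hqd : F.natDegree ≤ q := by nlinarith
  have hratio := h1 r0 hr0 F F.natDegree b rfl (by omega) hFsq hFc q a' ha' hnum δ hδ
    (fun P _ => (hloc P (cnt P F) (hge P)).1)
    (fun P j _ hj => by
      rcases (hloc P (cnt P F) (hge P)).2 with h2 | ⟨W, hW⟩
      · exact h2
      · exact absurd hj (no_one hB hm hnN ha hF0 hFc hH hdeg hy hfac hirr hW (hee j)))
    (hG (MK (exD r0 hr0)) M m N q a a' (by omega) ha' i0 j0 hj0 F hF0 hqd hFc H y hy hi0 hfac lam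
      δ b hdisc)
  exact hM r0 hr0 M m N q a a' (by omega) ha' F hFm hqd hFc hratio H u1 T1 T1' e1 hf1 y hy i0 hi0 i

end Pool.Agent.N115.AN
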