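import Pool.Agent.N115.AN.Asm

/-!
Algebroid points: the main theorem, from its parts (reduction to the Galois case).
-/

set_option autoImplicit false
set_option linter.unusedSectionVars false

open FF Pool.Agent.W603.LV Pool.Agent.W602.GT Pool.Agent.Y190.BV Polynomial
open Pool.Agent.Y190.AN (MK exD Minf)

namespace Pool.Agent.N115.AN

/-- the splitting field of a primitive element -/
theorem exists_gal {K E : Type} [Field K] [CharZero K] [Field E] [Algebra K E]
    [FiniteDimensional K E] (f0 : E) (hlam : IntermediateField.adjoin K {f0} = ⊤) :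
    ∃ (M : Type) (_ : Field M) (_ : Algebra K M) (_ : FiniteDimensional K M) (_ : IsGalois K M)
      (φ : E →ₐ[K] M), (∀ g h : M ≃ₐ[K] M, g (φ f0) = h (φ f0) → ∀ x, g (φ x) = h (φ x)) ∧
      (∀ g : M ≃ₐ[K] M, (∀ h : M ≃ₐ[K] M, g (h (φ f0)) = h (φ f0)) → g = 1) ∧
      (Set.range fun g : M ≃ₐ[K] M => g (φ f0)).ncard ≤ Module.finrank K E := by
  classical
  have hint : IsIntegral K f0 := Algebra.IsIntegral.isIntegral f0
  set Q := minpoly K f0 with hQ
  have hsep : Q.Separable := (minpoly.irreducible hint).separable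
  have hgal : IsGalois K Q.SplittingField := IsGalois.of_separable_splitting_field hsep
  have hQs : (Q.map (algebraMap K Q.SplittingField)).Splits := Polynomial.SplittingField.splits Q
  obtain ⟨φ⟩ : Nonempty (E →ₐ[K] Q.SplittingField) := by
    refine IntermediateField.nonempty_algHom_of_adjoin_splits (S := {f0}) ?_ hlam
    rintro s hs
    rw [Set.mem_singleton_iff.1 hs]
    exact ⟨hint, hQs⟩
  have hminφ : minpoly K (φ f0) = Q := minpoly.algHom_eq φ φ.toRingHom.injective f0
  refine ⟨Q.SplittingField, inferInstance, inferInstance, inferInstance, hgal, φ, ?_, ?_, ?_⟩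
  · intro g h hgh x
    have hx : x ∈ IntermediateField.adjoin K {f0} := by
      rw [hlam]
      exact IntermediateField.mem_top
    induction hx using IntermediateField.adjoin_induction with
    | mem x hx => rw [Set.mem_singleton_iff.1 hx, hgh]
    | algebraMap x => rw [φ.commutes, g.commutes, h.commutes]
    | add x y _ _ hx hy => rw [map_add, map_add, map_add, hx, hy]
    | inv x _ hx => rw [map_inv₀, map_inv₀, map_inv₀, hx]
    | mul x y _ _ hx hy => rw [map_mul, map_mul, map_mul, hx, hy]
  · intro g hg
    have hroots : ∀ x ∈ Q.rootSet Q.SplittingField, g x = x := by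
      intro x hx
      rw [Polynomial.mem_rootSet] at hx
      have h2 : IsConjRoot K x (φ f0) := by
        change minpoly K x = minpoly K (φ f0)
        rw [hminφ]
        exact (minpoly.eq_of_irreducible_of_monic (minpoly.irreducible hint) hx.2
          (minpoly.monic hint)).symm
      obtain ⟨σ, hσ⟩ := isConjRoot_iff_exists_algEquiv.1 h2
      rw [← hσ]
      exact hg σ
    have htop := Polynomial.SplittingField.adjoin_rootSet Q
    ext x
    have hx : x ∈ Algebra.adjoin K (Q.rootSet Q.SplittingField) := by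
      rw [htop]
      exact Algebra.mem_top
    change g x = x
    induction hx using Algebra.adjoin_induction with
    | mem x hx => exact hroots x hx
    | algebraMap x => exact g.commutes x
    | add x y _ _ hx hy => rw [map_add, hx, hy]
    | mul x y _ _ hx hy => rw [map_mul, hx, hy]
  · have hsub : (Set.range fun g : Q.SplittingField ≃ₐ[K] Q.SplittingField => g (φ f0)) ⊆
        (Q.rootSet Q.SplittingField) := by
      rintro _ ⟨g, rfl⟩
      rw [Polynomial.mem_rootSet]
      refine ⟨minpoly.ne_zero hint, ?_⟩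
      have h2 : Polynomial.aeval (g (φ f0)) Q = g (φ (Polynomial.aeval f0 Q)) := by
        rw [← Polynomial.aeval_algHom_apply φ]
        exact Polynomial.aeval_algHom_apply (g : Q.SplittingField →ₐ[K] Q.SplittingField) (φ f0) Q
      rw [h2, minpoly.aeval, map_zero, map_zero]
    have hcard : (Q.rootSet Q.SplittingField).ncard ≤ Q.natDegree := by
      rw [Polynomial.rootSet, Set.ncard_coe_finset]
      refine (Multiset.toFinset_card_le _).trans ?_
      exact (Polynomial.card_roots' _).trans Polynomial.natDegree_map_le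
    refine (Set.ncard_le_ncard hsub (Polynomial.rootSet_finite Q _)).trans (hcard.trans ?_)
    exact minpoly.natDegree_le f0

/-- **Fields generated by a linear combination of the values.** -/
theorem prim_pow (h1 : RatiosMinf) (hA : LocA) (hB : LocB) (hC : LocC) (hG : GrowthLemma)
    (hF : ConjF) (hM : ConclMinf) {r0 : ℝ} {hr0 : 0 < r0} {E : Type} [Field E]
    [Algebra (MK (exD r0 hr0)) E] [Algebra ℂ E] [IsScalarTower ℂ (MK (exD r0 hr0)) E]
    [FiniteDimensional (MK (exD r0 hr0)) E] {r n m N : ℕ}
    (hfr : Module.finrank (MK (exD r0 hr0)) E ≤ r) (hm : 2 ≤ m)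
    (hN : (r * (r - 1) + 4) * (r * n) < N + 1)
    {a : Fin (N + 1) → ℂ} (ha : Function.Injective a) {H : E[X]} (hH : H ≠ 0)
    (hdeg : H.natDegree ≤ n) {y : Fin (N + 1) → E}
    (hy : ∀ i, y i ^ m = H.eval (algebraMap ℂ E (a i))) {i0 : Fin (N + 1)} (hi0 : y i0 = 1)
    (hmult : ∀ p : E[X], Irreducible p → ¬ p ^ m ∣ H) {lam : Fin (N + 1) → ℂ}
    (hlam : IntermediateField.adjoin (MK (exD r0 hr0)) {∑ i, lam i • y i} = ⊤)
    (i : Fin (N + 1)) : IsAlgebraic (Minf r0 hr0) (y i) := by
  classical
  have hr : 1 ≤ r := le_trans Module.finrank_pos hfr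
  have hchK : CharZero (MK (exD r0 hr0)) :=
    charZero_of_injective_algebraMap (algebraMap ℂ (MK (exD r0 hr0))).injective
  obtain ⟨M, fM, aM, fdM, hgal, φ, hdet, hfaith, hcard⟩ := exists_gal
    (K := MK (exD r0 hr0)) (∑ i, lam i • y i) hlam
  let aC : Algebra ℂ M :=
    ((algebraMap (MK (exD r0 hr0)) M).comp (algebraMap ℂ (MK (exD r0 hr0)))).toAlgebra
  have tow : IsScalarTower ℂ (MK (exD r0 hr0)) M := IsScalarTower.of_algebraMap_eq fun _ => rfl
  have hφc : ∀ c : ℂ, φ (algebraMap ℂ E c) = algebraMap ℂ M c := by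
    intro c
    rw [IsScalarTower.algebraMap_apply ℂ (MK (exD r0 hr0)) E, φ.commutes]
    rfl
  let algEM : Algebra E M := φ.toRingHom.toAlgebra
  have hchE : CharZero E := charZero_of_injective_algebraMap (algebraMap ℂ E).injective
  have hsum : (∑ i, algebraMap ℂ M (lam i) * φ (y i)) = φ (∑ i, lam i • y i) := by
    rw [map_sum]
    refine Finset.sum_congr rfl fun i _ => ?_
    rw [Algebra.smul_def, map_mul, hφc]
  have key : IsAlgebraic (Minf r0 hr0) (φ (y i)) := by
    refine gal_pow h1 hA hB hC hG hF hM (M := M) (r := r) (n := n) (m := m) (N := N) hr hm hN ha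
      (H := H.map (φ : E →+* M)) ((Polynomial.map_ne_zero_iff (φ : E →+* M).injective).2 hH)
      (Polynomial.natDegree_map_le.trans hdeg) (y := fun i => φ (y i)) (fun i => ?_) (i0 := i0)
      (by simp only [hi0, map_one]) ?_ (lam := lam) ?_ ?_ ?_ i
    · rw [← hφc, ← map_pow, hy i]
      change _ = (H.map (φ : E →+* M)).eval ((φ : E →+* M) _)
      rw [Polynomial.eval_map, Polynomial.eval₂_hom]
      rfl
    · intro p hp hd
      obtain ⟨p0, h2, h3⟩ := Pool.Agent.N115.IM.exists_down (K := E) (K' := M) hH
        (by omega : 1 ≤ m) hp hd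
      exact hmult p0 h2 h3
    · intro g h hgh j
      rw [hsum] at hgh
      exact hdet g h hgh (y j)
    · intro g hg
      rw [hsum] at hg
      exact hfaith g hg
    · rw [hsum]
      exact hcard.trans hfr
  have tE : IsScalarTower (Minf r0 hr0) (MK (exD r0 hr0)) E :=
    IsScalarTower.of_algebraMap_eq fun _ => rfl
  have tM : IsScalarTower (Minf r0 hr0) (MK (exD r0 hr0)) M :=
    IsScalarTower.of_algebraMap_eq fun _ => rfl
  exact (isAlgebraic_algHom_iff (φ.restrictScalars (Minf r0 hr0)) φ.toRingHom.injective).1 key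

/-- **The main theorem.** -/
theorem alg_pow (h1 : RatiosMinf) (hA : LocA) (hB : LocB) (hC : LocC) (hG : GrowthLemma)
    (hF : ConjF) (hM : ConclMinf) : AlgPow := by
  classical
  intro r0 hr0 E _ _ _ _ _ r n m N hfr hm hN a ha H hH hHn y hy hmult j i0 hi0
  set K := MK (exD r0 hr0) with hK
  have hchK : CharZero K := charZero_of_injective_algebraMap (algebraMap ℂ K).injective
  have hr : 1 ≤ r := le_trans Module.finrank_pos hfr
  have hnN : n < N + 1 := by
    have h2 : 1 * (1 * n) ≤ (r * (r - 1) + 4) * (r * n) :=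
      Nat.mul_le_mul (by omega) (Nat.mul_le_mul_right _ hr)
    omega
  have hinj : Function.Injective fun i => algebraMap ℂ E (a i) :=
    (algebraMap ℂ E).injective.comp ha
  set z : Fin (N + 1) → E := fun i => y i / y i0 with hz
  set K1 : IntermediateField K E := IntermediateField.adjoin K (Set.range z) with hK1
  set z' : Fin (N + 1) → K1 := fun i => ⟨z i, IntermediateField.subset_adjoin K _ ⟨i, rfl⟩⟩
    with hz'
  have hc0 : (y i0 ^ m)⁻¹ ≠ 0 := inv_ne_zero (pow_ne_zero _ hi0)
  set H1 : E[X] := C (y i0 ^ m)⁻¹ * H with hH1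
  have hH10 : H1 ≠ 0 := mul_ne_zero (C_ne_zero.2 hc0) hH
  have hH1n : H1.natDegree ≤ n := by
    rw [hH1, natDegree_C_mul hc0]
    exact hHn
  have hev : ∀ i, z i ^ m = H1.eval (algebraMap ℂ E (a i)) := by
    intro i
    rw [hH1, eval_mul, eval_C, ← hy i, hz]
    simp only [div_pow]
    rw [div_eq_mul_inv, mul_comm]
  have t1 : IsScalarTower ℂ K1 E := IsScalarTower.of_algebraMap_eq fun _ => rfl
  have t2 : IsScalarTower ℂ K K1 := inferInstance
  set H2 : K1[X] := Lagrange.interpolate Finset.univ (fun i => algebraMap ℂ K1 (a i))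
    (fun i => z' i ^ m) with hH2
  have hinj1 : Set.InjOn (fun i => algebraMap ℂ K1 (a i)) (Finset.univ : Finset (Fin (N + 1))) :=
    ((algebraMap ℂ K1).injective.comp ha).injOn
  have hH2ev : ∀ i, H2.eval (algebraMap ℂ K1 (a i)) = z' i ^ m := fun i =>
    Lagrange.eval_interpolate_at_node _ hinj1 (Finset.mem_univ i)
  have hH2deg : H2.degree < (Finset.univ : Finset (Fin (N + 1))).card :=
    Lagrange.degree_interpolate_lt _ hinj1
  have hmap : H2.map (algebraMap K1 E) = H1 := by
    apply Polynomial.eq_of_degrees_lt_of_eval_index_eq (s := Finset.univ)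
      (v := fun i => algebraMap ℂ E (a i)) hinj.injOn
    · rw [degree_map]
      exact hH2deg
    · rw [Finset.card_univ, Fintype.card_fin]
      refine (degree_le_natDegree).trans_lt ?_
      exact_mod_cast (by omega : H1.natDegree < N + 1)
    · intro i _
      rw [← hev i]
      have h1 : algebraMap ℂ E (a i) = algebraMap K1 E (algebraMap ℂ K1 (a i)) :=
        IsScalarTower.algebraMap_apply ℂ K1 E _
      rw [h1, eval_map_algebraMap, aeval_algebraMap_apply_eq_algebraMap_eval, hH2ev i, map_pow]
      rfl
  have hH20 : H2 ≠ 0 := by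
    intro h
    apply hH10
    rw [← hmap, h, Polynomial.map_zero]
  have hH2n : H2.natDegree ≤ n := by
    rw [← natDegree_map (algebraMap K1 E), hmap]
    exact hH1n
  have hfin1 : Module.finrank K K1 ≤ r := by
    refine le_trans ?_ hfr
    exact Submodule.finrank_le (Subalgebra.toSubmodule K1.toSubalgebra)
  -- the primitive element
  have hgen : IntermediateField.adjoin K (Set.range z') = ⊤ := by
    have h1 : (IntermediateField.adjoin K (Set.range z')).map K1.val = K1 := by
      rw [IntermediateField.adjoin_map, ← Set.range_comp]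
      rfl
    apply le_antisymm le_top
    intro x _
    have h2 : (x : E) ∈ (IntermediateField.adjoin K (Set.range z')).map K1.val := by
      rw [h1]
      exact x.2
    obtain ⟨x', hx', hxx⟩ := h2
    have h3 : x' = x := Subtype.ext hxx
    rw [← h3]
    exact hx'
  obtain ⟨lam, hlam⟩ := Pool.Agent.N813.IM.exists_prim (k := ℂ) z' hgen
  have hfd : FiniteDimensional K K1 := inferInstance
  have key := prim_pow h1 hA hB hC hG hF hM (E := K1) (r := r) (n := n) (m := m) (N := N) hfin1
    hm hN ha hH20 hH2n (y := z') (fun i => (hH2ev i).symm) (i0 := i0) ?_ ?_ hlam j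
  · have tE : IsScalarTower (Minf r0 hr0) K E := IsScalarTower.of_algebraMap_eq fun _ => rfl
    have tK : IsScalarTower (Minf r0 hr0) K K1 := IsScalarTower.of_algebraMap_eq fun _ => rfl
    exact (isAlgebraic_algHom_iff (K1.val.restrictScalars (Minf r0 hr0))
      K1.val.toRingHom.injective).2 key
  · apply Subtype.ext
    exact div_self hi0
  · intro p hp hpm
    have h1 : (p.map (algebraMap K1 E)) ^ m ∣ H := by
      have h2 := Polynomial.map_dvd (algebraMap K1 E) hpm
      rw [Polynomial.map_pow, hmap, hH1] at h2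
      exact (((isUnit_C.2 (IsUnit.mk0 _ hc0)).dvd_mul_left).1 h2)
    obtain ⟨p', hp', hpp⟩ := Polynomial.exists_irreducible_of_natDegree_pos
      (f := p.map (algebraMap K1 E)) (by
        rw [natDegree_map]
        exact hp.natDegree_pos)
    exact hmult p' hp' ((pow_dvd_pow_of_dvd hpp m).trans h1)

end Pool.Agent.N115.AN
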