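import Pool.Agent.N115.AN.Stm

/-!
Algebroid points: small lemmas for the assembly.
-/

set_option autoImplicit false

open FF Pool.Agent.W603.LV Pool.Agent.W602.GT Pool.Agent.Y190.BV Polynomial

namespace Pool.Agent.N115.AN

section cnt

variable {k K M : Type} [Field k] [Field K] [Field M] [Algebra k K] [Algebra k M] [Algebra K M]
  [IsScalarTower k K M] {W : Place k M} {P : Place k K} {e : ℕ}

theorem cnt_map (hW : Over W P e) {F : K[X]} (hF : F ≠ 0) :
    cnt W (F.map (algebraMap K M)) = e * cnt P F := by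
  apply cnt_unique
  · intro j
    rw [Polynomial.coeff_map]
    rcases cnt_ge P F j with h | h
    · left
      rw [h, map_zero]
    · right
      rw [hW.2]
      exact mul_le_mul_of_nonneg_left h (by positivity)
  · obtain ⟨j, hj, hj2⟩ := cnt_att P hF
    refine ⟨j, ?_, ?_⟩
    · rw [Polynomial.coeff_map]
      exact (_root_.map_ne_zero _).2 hj
    · rw [Polynomial.coeff_map, hW.2, hj2]

theorem eval_map_const (F : K[X]) (c : k) : (F.map (algebraMap K M)).eval (algebraMap k M c) =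
    algebraMap K M (F.eval (algebraMap k K c)) := by
  rw [IsScalarTower.algebraMap_apply k K M, Polynomial.eval_map_algebraMap,
    Polynomial.aeval_algebraMap_apply, Polynomial.coe_aeval_eq_eval]

theorem ct_map (hW : Over W P e) {F : K[X]} (hF : F ≠ 0) (c : k) :
    ct W (F.map (algebraMap K M)) c = e * ct P F c := by
  unfold ct
  rw [cnt_map hW hF, eval_map_const, hW.2]
  ring

end cnt

section disc

variable {K M : Type} [Field K] [Field M] [Algebra K M] [FiniteDimensional K M] [IsGalois K M]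

/-- the discriminant exists -/
theorem exists_disc (f : M) : ∃ (b : ℕ) (δ : K), IsDisc f b δ ∧ δ ≠ 0 ∧
    b = (Set.range fun g : M ≃ₐ[K] M => g f).ncard *
      ((Set.range fun g : M ≃ₐ[K] M => g f).ncard - 1) := by
  classical
  have hfin : Finite (M ≃ₐ[K] M) := inferInstance
  have hft : Fintype (M ≃ₐ[K] M) := Fintype.ofFinite _
  let S : Finset M := Finset.univ.image fun g : M ≃ₐ[K] M => g f
  have hS : ∀ x, x ∈ S ↔ ∃ g : M ≃ₐ[K] M, g f = x := by
    intro x
    simp [S]
  have hSc : (Set.range fun g : M ≃ₐ[K] M => g f).ncard = S.card := by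
    rw [← Set.ncard_coe_finset]
    congr 1
    ext x
    simp [S]
  obtain ⟨δ, hδ⟩ : ∃ δ : K, algebraMap K M δ = ∏ x ∈ S.offDiag, (x.1 - x.2) := by
    have h1 : (∏ x ∈ S.offDiag, (x.1 - x.2) : M) ∈ (⊥ : IntermediateField K M) := by
      rw [IsGalois.mem_bot_iff_fixed]
      intro g
      rw [map_prod]
      refine Finset.prod_bij' (fun x _ => (g x.1, g x.2)) (fun x _ => (g.symm x.1, g.symm x.2))
        ?_ ?_ ?_ ?_ ?_
      · rintro ⟨x, y⟩ h
        rw [Finset.mem_offDiag] at h ⊢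
        obtain ⟨h1, h2, h3⟩ := h
        rw [hS] at h1 h2
        obtain ⟨g1, rfl⟩ := h1
        obtain ⟨g2, rfl⟩ := h2
        exact ⟨(hS _).2 ⟨g * g1, rfl⟩, (hS _).2 ⟨g * g2, rfl⟩, fun h => h3 (g.injective h)⟩
      · rintro ⟨x, y⟩ h
        rw [Finset.mem_offDiag] at h ⊢
        obtain ⟨h1, h2, h3⟩ := h
        rw [hS] at h1 h2
        obtain ⟨g1, rfl⟩ := h1
        obtain ⟨g2, rfl⟩ := h2
        exact ⟨(hS _).2 ⟨g.symm * g1, rfl⟩, (hS _).2 ⟨g.symm * g2, rfl⟩,
          fun h => h3 (g.symm.injective h)⟩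
      · rintro ⟨x, y⟩ _
        simp
      · rintro ⟨x, y⟩ _
        simp
      · rintro ⟨x, y⟩ _
        simp
    obtain ⟨δ, hδ⟩ := IntermediateField.mem_bot.1 h1
    exact ⟨δ, hδ⟩
  refine ⟨S.offDiag.card, δ, ⟨S, hS, rfl, hδ⟩, ?_, ?_⟩
  · intro h0
    rw [h0, map_zero] at hδ
    have h1 := (Finset.prod_eq_zero_iff.1 hδ.symm)
    obtain ⟨⟨x, y⟩, hx, hxy⟩ := h1
    exact (Finset.mem_offDiag.1 hx).2.2 (sub_eq_zero.1 hxy)
  · rw [Finset.offDiag_card, hSc, Nat.mul_sub, mul_one]

end disc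

end Pool.Agent.N115.AN
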