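import Pool.Agent.N115.AN.Stm
import Pool.Agent.TH466.QG.Gal
import Pool.Agent.TH466.QG.Equiv

/-!
The product of the differences of the conjugates at a place and its inertia group.
-/

set_option autoImplicit false
set_option linter.unusedSectionVars false

open FF Pool.Agent.W603.LV Polynomial

namespace Pool.Agent.N115.AN

open Pool.Agent.W619.PQ (exists_inertia Inert)
open Pool.Agent.TH466.QG (fixg toF toF_apply fixg_finite pullPl)
open IntermediateField (fixedField)

/-- the fixed field is `K` -/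
theorem exists_equiv' {k K M : Type} [Field k] [Field K] [Field M] [Algebra k K] [Algebra k M]
    [Algebra K M] [IsScalarTower k K M] [FiniteDimensional K M] [IsGalois K M] :
    ∃ e : fixedField (fixg k M K) ≃ₐ[k] K, ∀ z, algebraMap K M (e z) = (z : M) := by
  let φ : K →ₐ[k] M := IsScalarTower.toAlgHom k K M
  have h : φ.fieldRange = fixedField (fixg k M K) := by
    ext x
    rw [AlgHom.mem_fieldRange, IntermediateField.mem_fixedField_iff]
    constructor
    · rintro ⟨y, rfl⟩ g hg
      exact hg y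
    · intro hx
      have h1 : x ∈ Set.range (algebraMap K M) := by
        rw [IsGalois.mem_range_algebraMap_iff_fixed]
        intro g
        exact hx (g.restrictScalars k) fun y => g.commutes y
      exact h1
  let e1 : K ≃ₐ[k] φ.fieldRange := AlgEquiv.ofInjectiveField φ
  let e2 : φ.fieldRange ≃ₐ[k] fixedField (fixg k M K) := IntermediateField.equivOfEq h
  refine ⟨(e1.trans e2).symm, fun z => ?_⟩
  obtain ⟨x, rfl⟩ := (e1.trans e2).surjective z
  rw [AlgEquiv.symm_apply_apply]
  rfl

/-- places of a Galois extension and their inertia groups -/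
theorem inertia' {k K M : Type} [Field k] [CharZero k] [IsAlgClosed k] [Field K] [Field M]
    [Algebra k K] [Algebra k M] [Algebra K M] [IsScalarTower k K M] [FiniteDimensional K M]
    [IsGalois K M] (P : Place k K) :
    ∃ (W : Place k M) (e : ℕ), Over W P e ∧ 1 ≤ e ∧
      (2 ≤ e → ∃ g : M ≃ₐ[K] M, g ≠ 1 ∧ ∀ z, Ge W 0 z → Ge W 1 (g z - z)) := by
  classical
  have hfin : Finite (fixg k M K) := fixg_finite
  obtain ⟨φ, hφ⟩ := exists_equiv' (k := k) (K := K) (M := M)
  obtain ⟨W, e, I, hWv, hcard, hI⟩ := exists_inertia (fixg k M K) (pullPl φ P)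
  have hO : Over W P e := by
    refine ⟨hWv.1, fun x => ?_⟩
    have h1 := hWv.2 (φ.symm x)
    have h2 : algebraMap (fixedField (fixg k M K)) M (φ.symm x) = algebraMap K M x := by
      rw [← φ.apply_symm_apply x, hφ, φ.apply_symm_apply]
      rfl
    rw [h2] at h1
    have h3 : (pullPl φ P).ord (φ.symm x) = P.ord x := by
      change P.ord (φ (φ.symm x)) = _
      rw [φ.apply_symm_apply]
    rw [h3] at h1
    exact h1
  refine ⟨W, e, hO, ?_, fun he => ?_⟩
  · rw [← hcard]
    exact Nat.card_pos
  · have h1 : ∃ g ∈ I, g ≠ 1 := by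
      by_contra hcon
      push Not at hcon
      have h2 : I = ⊥ := by
        rw [Subgroup.eq_bot_iff_forall]
        exact hcon
      rw [h2, Subgroup.card_bot] at hcard
      omega
    obtain ⟨g, hg, hg1⟩ := h1
    refine ⟨toF g, fun h => hg1 ?_, fun z hz => hI g hg z hz⟩
    apply Subtype.ext
    ext x
    have := congrArg (fun φ : M ≃ₐ[K] M => φ x) h
    exact this

/-- **AN/4.** -/
theorem loc_c : LocC := by
  classical
  intro k K M _ _ _ _ _ _ _ _ _ _ _ f b δ hδ hfaith P c0 hreg
  obtain ⟨S, hS, hb, hprod⟩ := hδ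
  obtain ⟨W, e, hO, he, hI⟩ := inertia' (M := M) P
  have hSdiff : ∀ x ∈ S.offDiag, x.1 - x.2 ≠ 0 ∧ Ge W (e * c0) (x.1 - x.2) := by
    intro x hx
    rw [Finset.mem_offDiag] at hx
    obtain ⟨h1, h2, h3⟩ := hx
    obtain ⟨g1, hg1⟩ := (hS _).1 h1
    obtain ⟨g2, hg2⟩ := (hS _).1 h2
    refine ⟨sub_ne_zero.2 h3, ?_⟩
    rw [← hg1, ← hg2]
    exact (hreg W e hO g1).sub (hreg W e hO g2)
  have hord : ∀ x ∈ S.offDiag, e * c0 ≤ W.ord (x.1 - x.2) := by
    intro x hx
    obtain ⟨h1, h2⟩ := hSdiff x hx
    exact h2.resolve_left h1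
  have hsum : e * P.ord δ = ∑ x ∈ S.offDiag, W.ord (x.1 - x.2) := by
    rw [← Pool.Agent.W619.PQ.ord_prod _ W _ fun x hx => (hSdiff x hx).1, ← hprod]
    exact (hO.2 δ).symm
  have h1 : (b : ℤ) * (e * c0) ≤ e * P.ord δ := by
    rw [hsum, hb]
    calc ((S.offDiag.card : ℕ) : ℤ) * (e * c0) = ∑ x ∈ S.offDiag, (e * c0 : ℤ) := by
          rw [Finset.sum_const, nsmul_eq_mul]
      _ ≤ _ := Finset.sum_le_sum hord
  have he' : (0 : ℤ) < e := by exact_mod_cast he
  refine ⟨?_, ?_⟩
  · have h2 : (e : ℤ) * (b * c0) ≤ e * P.ord δ := by linarith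
    exact le_of_mul_le_mul_left h2 he'
  · by_cases he1 : e = 1
    · right
      exact ⟨W, he1 ▸ hO⟩
    · left
      obtain ⟨g, hg1, hg⟩ := hI (by omega)
      obtain ⟨h, hh⟩ : ∃ h : M ≃ₐ[K] M, g (h f) ≠ h f := by
        by_contra hcon
        push Not at hcon
        exact hg1 (hfaith g hcon)
      have hpair : ((g (h f), h f) : M × M) ∈ S.offDiag := by
        rw [Finset.mem_offDiag]
        exact ⟨(hS _).2 ⟨g * h, rfl⟩, (hS _).2 ⟨h, rfl⟩, hh⟩
      obtain ⟨t, ht0, ht⟩ := P.surj
      have hbig : e * c0 + 1 ≤ W.ord (g (h f) - h f) := by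
        set s := algebraMap K M (t ^ c0) with hs
        have hs0 : s ≠ 0 := by
          rw [hs]
          exact (_root_.map_ne_zero _).2 (zpow_ne_zero _ ht0)
        have hsord : W.ord s = e * c0 := by
          rw [hs, hO.2, P.ord_zpow, ht, mul_one]
        have h2 : Ge W 0 (h f / s) := by
          by_cases hf0 : h f = 0
          · rw [hf0, zero_div]
            exact Or.inl rfl
          · right
            have h3 := (hreg W e hO h).resolve_left hf0
            rw [W.ord_div hf0 hs0, hsord]
            linarith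
        have h3 := hg _ h2
        have h4 : g (h f / s) - h f / s = (g (h f) - h f) / s := by
          rw [map_div₀, hs, AlgEquiv.commutes, sub_div]
        rw [h4] at h3
        have h5 : (g (h f) - h f) / s ≠ 0 := div_ne_zero (sub_ne_zero.2 hh) hs0
        have h6 := h3.resolve_left h5
        rw [W.ord_div (sub_ne_zero.2 hh) hs0, hsord] at h6
        linarith
      have h2 : (b : ℤ) * (e * c0) + 1 ≤ e * P.ord δ := by
        rw [hsum, hb, ← Finset.add_sum_erase _ _ hpair]
        have h3 : ∑ x ∈ S.offDiag.erase (g (h f), h f), (e * c0 : ℤ) ≤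
            ∑ x ∈ S.offDiag.erase (g (h f), h f), W.ord (x.1 - x.2) :=
          Finset.sum_le_sum fun x hx => hord x (Finset.mem_of_mem_erase hx)
        rw [Finset.sum_const, nsmul_eq_mul, Finset.card_erase_of_mem hpair] at h3
        have h4 : 1 ≤ S.offDiag.card := Finset.card_pos.2 ⟨_, hpair⟩
        push_cast [h4] at h3
        linarith
      by_contra hcon
      push Not at hcon
      have h3 : P.ord δ ≤ b * c0 := by omega
      have h4 : (e : ℤ) * P.ord δ ≤ e * (b * c0) := mul_le_mul_of_nonneg_left h3 he'.le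
      linarith

end Pool.Agent.N115.AN
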