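import Pool.Agent.N115.AN.Red
import Pool.Agent.Y221.PD.Top

/-!
The five conditions of the Green-Griffiths-Lang conjecture for the images of bounded degree of the
varieties of the vectors whose `m`-th powers are the values of a polynomial at given constants,
from the parts of the project.
-/

set_option autoImplicit false
set_option linter.unusedSectionVars false

open FF Pool.Agent.W603.LV Polynomial

namespace Pool.Agent.N115.AN

open Pool.Agent.W602.GT (GeneralType Psef KodGe Ruled coords essFinite kod_of_general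
  psef_of_kodGe not_psef_of)
open Pool.Agent.W619.PQ (IsUniruled)
open Pool.Agent.TH466.QG (Sp StronglyGeneral not_ruled_of_general)
open Pool.Agent.Y190.AN (MK exD Minf)
open Pool.Agent.Y221.PD (PseudoPicard PseudoAbelian PseudoTorus abelian_of_brody torus_of_brody
  brody_of_picard)
open Pool.Agent.Y221.BD (PseudoBrody)

variable {k : Type} [Field k] {N n m r w : ℕ}

/-- extension of the field -/
theorem Free.map [CharZero k] {K K' : Type} [Field K] [Field K'] [Algebra k K] [Algebra k K']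
    [Algebra K K'] [IsScalarTower k K K'] [Algebra.IsAlgebraic K K'] (hm : 1 ≤ m)
    {a : Fin (N + 1) → k} {H : K[X]} {y : Fin (N + 1) → K} (h : Free m n a H y) :
    Free m n a (H.map (algebraMap K K')) (fun i => algebraMap K K' (y i)) := by
  have hchK : CharZero K := charZero_of_injective_algebraMap (algebraMap k K).injective
  refine ⟨h.inj, (Polynomial.map_ne_zero_iff (algebraMap K K').injective).2 h.ne,
    Polynomial.natDegree_map_le.trans h.deg, fun i => ?_, fun p hp hd => ?_, ?_⟩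
  · rw [← map_pow, h.val, IsScalarTower.algebraMap_apply k K K', Polynomial.eval_map_algebraMap,
      Polynomial.aeval_algebraMap_apply, Polynomial.coe_aeval_eq_eval]
  · obtain ⟨p0, h1, h2⟩ := Pool.Agent.N115.IM.exists_down h.ne hm hp hd
    exact h.free p0 h1 h2
  · set A := coords k y with hA
    set A' := coords k (fun i => algebraMap K K' (y i)) with hA'
    have h1 : ∀ x ∈ A, algebraMap K K' x ∈ A' := by
      have h2 : A ≤ A'.comap (IsScalarTower.toAlgHom k K K') := by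
        rw [hA]
        unfold Pool.Agent.W602.GT.coords
        rw [IntermediateField.adjoin_le_iff]
        rintro _ ⟨i, j, hj, rfl⟩
        change algebraMap K K' _ ∈ A'
        rw [map_div₀]
        exact IntermediateField.subset_adjoin k _ ⟨i, j, (_root_.map_ne_zero _).2 hj, rfl⟩
      exact fun x hx => h2 hx
    let φ : A →+* A' :=
      { toFun := fun x => ⟨algebraMap K K' x, h1 x x.2⟩
        map_one' := Subtype.ext (map_one _)
        map_mul' := fun x y => Subtype.ext (map_mul _ _ _)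
        map_zero' := Subtype.ext (map_zero _)
        map_add' := fun x y => Subtype.ext (map_add _ _ _) }
    let _ : Algebra A A' := φ.toAlgebra
    have t1 : IsScalarTower A A' K' := IsScalarTower.of_algebraMap_eq fun x => rfl
    have t2 : IsScalarTower A K K' := IsScalarTower.of_algebraMap_eq fun x => rfl
    have hAK : Algebra.IsAlgebraic A K := h.alg
    have h2 : Algebra.IsAlgebraic A K' := Algebra.IsAlgebraic.trans A K K'
    exact Algebra.IsAlgebraic.extendScalars (R := A) (S := A') (A := K') (by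
      intro x y hxy
      exact Subtype.ext ((algebraMap K K').injective (congrArg Subtype.val hxy)))

theorem Free.exists_ne {K : Type} [Field K] [Algebra k K] (hm : 1 ≤ m) (hn : n ≤ N)
    {a : Fin (N + 1) → k} {H : K[X]} {y : Fin (N + 1) → K} (h : Free m n a H y) :
    ∃ i0, y i0 ≠ 0 := by
  have hinj : Function.Injective fun i => algebraMap k K (a i) :=
    (algebraMap k K).injective.comp h.inj
  by_contra hcon
  push Not at hcon
  apply h.ne
  apply Polynomial.eq_zero_of_natDegree_lt_card_of_eval_eq_zero H hinj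
  · intro i
    rw [← h.val i, hcon i, zero_pow (by omega)]
  · rw [Fintype.card_fin]
    have := h.deg
    omega

/-- the bounds -/
def Bd (r n N : ℕ) : Prop :=
  4 * n + (n + 2 * r - 1) ^ 2 < 2 * (N + 1) ∧ (r * (r - 1) + 4) * (r * n) < N + 1

theorem Bd.le (h : Bd r n N) (hr : 1 ≤ r) : n ≤ N := by
  have h1 : 1 * (1 * n) ≤ (r * (r - 1) + 4) * (r * n) :=
    Nat.mul_le_mul (by omega) (Nat.mul_le_mul_right _ hr)
  have := h.2
  omega

theorem Bd.sub {N1 n1 : ℕ} (h : Bd r n N) (hr : 1 ≤ r) (hm : 2 ≤ m)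
    (h1 : (N1 = N ∧ n1 = n) ∨ (N1 + 1 = N ∧ n1 + m ≤ n)) : Bd r n1 N1 := by
  rcases h1 with ⟨rfl, rfl⟩ | ⟨rfl, h2⟩
  · exact h
  · obtain ⟨h3, h4⟩ := h
    obtain ⟨d, hd⟩ : ∃ d, n = n1 + 2 + d := ⟨n - n1 - 2, by omega⟩
    refine ⟨?_, ?_⟩
    · have h5 : (n1 + 2 * r - 1) ^ 2 ≤ (n + 2 * r - 1) ^ 2 := Nat.pow_le_pow_left (by omega) 2
      omega
    · have h5 : (r * (r - 1) + 4) * (r * (n1 + 2)) ≤ (r * (r - 1) + 4) * (r * n) :=
        Nat.mul_le_mul_left _ (Nat.mul_le_mul_left _ (by omega))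
      have h6 : (r * (r - 1) + 4) * (r * (n1 + 2)) =
          (r * (r - 1) + 4) * (r * n1) + 2 * ((r * (r - 1) + 4) * r) := by ring
      have h7 : 4 * 1 ≤ (r * (r - 1) + 4) * r := Nat.mul_le_mul (by omega) hr
      omega

/-- **Subvarieties.** -/
theorem Free.strong [CharZero k] [IsAlgClosed k] (hS : StrongOf) (hm : 2 ≤ m) (hr : 1 ≤ r)
    (hN : Bd r n N) {K L : Type} [Field K] [Field L] [Algebra k K] [Algebra k L] [Algebra L K]
    [IsScalarTower k L K] [FiniteDimensional L K] (hfr : Module.finrank L K ≤ r)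
    {a : Fin (N + 1) → k} {H : K[X]} {y : Fin (N + 1) → K} (h : Free m n a H y) {M : ℕ}
    {x : Fin (M + 1) → L} (hx : x ≠ 0) (hgen : coords k x = ⊤) : StronglyGeneral k x := by
  obtain ⟨i0, hi0⟩ := h.exists_ne (by omega) (hN.le hr)
  obtain ⟨Θ, hΘ, hopen⟩ := open_free (by omega : 1 ≤ m) h.ne h.deg h.val h.free
  refine hS k K L r N hfr y i0 hi0 h.alg ⟨Θ, hΘ, ?_⟩ M x hx hgen
  intro K'' _ _ S hS' y' hy' w' hw' htr hess halg E _ _ _ _ _ hfrE
  obtain ⟨H', h1, h2, h3, h4⟩ := hopen K'' S hS' y' hy'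
  exact Pool.Agent.N115.IM.all_images k K'' E w' r n m N hw' hr htr hfrE hm hN.1 a h.inj H' h1 h2
    (ratios_of_alg (by omega : 1 ≤ m) halg h1 fun i => (h3 i).symm) y' h3 h4

/-- **Punctured discs.** -/
theorem Free.picard (hP : AlgPow) (hPi : PicardOf) (hm : 2 ≤ m) (hr : 1 ≤ r) (hN : Bd r n N)
    {K L : Type} [Field K] [Field L] [Algebra ℂ K] [Algebra ℂ L] [Algebra L K]
    [IsScalarTower ℂ L K] [FiniteDimensional L K] (hfr : Module.finrank L K ≤ r)
    {a : Fin (N + 1) → ℂ} {H : K[X]} {y : Fin (N + 1) → K} (h : Free m n a H y) {M : ℕ}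
    {x : Fin (M + 1) → L} (hx : x ≠ 0) (hgen : coords ℂ x = ⊤) : PseudoPicard x := by
  obtain ⟨i0, hi0⟩ := h.exists_ne (by omega) (hN.le hr)
  obtain ⟨Θ, hΘ, hopen⟩ := open_free (by omega : 1 ≤ m) h.ne h.deg h.val h.free
  refine hPi K L r N hfr y i0 hi0 h.alg ⟨Θ, hΘ, ?_⟩ M x hx hgen
  intro E _ _ _ _ _ hfrE S hS' y' hy' i
  obtain ⟨H', h1, h2, h3, h4⟩ := hopen E S hS' y' hy'
  by_cases h0 : y' i0 = 0
  · rw [h0, div_zero]
    exact isAlgebraic_zero
  · exact hP 1 one_pos E r n m N hfrE hm hN.2 a h.inj H' h1 h2 y' h3 h4 i i0 h0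

/-- **All conditions.** -/
theorem Free.all (hP : AlgPow) (hPi : PicardOf) (hS : StrongOf) (hm : 2 ≤ m) (hr : 1 ≤ r)
    (hw : 0 < w) (hN : Bd r n N) {K K' L : Type} [Field K] [Field K'] [Field L] [Algebra ℂ K]
    [Algebra ℂ K'] [Algebra ℂ L] [Algebra K K'] [Algebra L K'] [IsScalarTower ℂ K K']
    [IsScalarTower ℂ L K'] [FiniteDimensional K K'] [FiniteDimensional L K']
    [Algebra.EssFiniteType ℂ K] (htr : Algebra.trdeg ℂ K = w) (hfr : Module.finrank L K' ≤ r)
    {a : Fin (N + 1) → ℂ} {H : K[X]} {y : Fin (N + 1) → K} (h : Free m n a H y) {M : ℕ}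
    {x : Fin (M + 1) → L} (hx : x ≠ 0) (hgen : coords ℂ x = ⊤) :
    GeneralType ℂ L w ∧ StronglyGeneral ℂ x ∧ PseudoPicard x ∧ PseudoBrody x ∧
      PseudoAbelian x ∧ PseudoTorus x := by
  have h' : Free m n a (H.map (algebraMap K K')) (fun i => algebraMap K K' (y i)) :=
    h.map (by omega)
  have h1 : PseudoPicard x := h'.picard hP hPi hm hr hN hfr hx hgen
  have h2 : PseudoBrody x := brody_of_picard h1
  refine ⟨?_, h'.strong hS hm hr hN hfr hx hgen, h1, h2, abelian_of_brody h2, torus_of_brody h2⟩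
  exact Pool.Agent.N115.IM.corr_of_free (K' := K') hm hr hw hN.1 h.inj htr hfr h.ne h.deg
    (ratios_of_alg (by omega : 1 ≤ m) h.alg h.ne fun i => (h.val i).symm) h.val h.free

/-- **The dichotomy.** -/
theorem all_or_ruled (hP : AlgPow) (hPi : PicardOf) (hS : StrongOf) (hm : 2 ≤ m) (hr : 1 ≤ r)
    (hw : 0 < w) (hN : Bd r n N) {a : Fin (N + 1) → ℂ} (ha : Function.Injective a) {K : Type}
    [Field K] [Algebra ℂ K] (htr : Algebra.trdeg ℂ K = w) {y : Fin (N + 1) → K} (hy0 : y ≠ 0)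
    (hgeny : coords ℂ y = ⊤) {H : K[X]} (hdeg : H.natDegree ≤ n)
    (hy : ∀ i, y i ^ m = H.eval (algebraMap ℂ K (a i)))
    (hfac : ∀ q : K[X], 2 ≤ q.natDegree → ¬ q ^ m ∣ H) :
    (∀ (K' L : Type) [Field K'] [Field L] [Algebra ℂ K'] [Algebra ℂ L] [Algebra K K']
      [Algebra L K'] [IsScalarTower ℂ K K'] [IsScalarTower ℂ L K'] [FiniteDimensional K K']
      [FiniteDimensional L K'], Module.finrank L K' ≤ r → ∀ (M : ℕ) (x : Fin (M + 1) → L),
      x ≠ 0 → coords ℂ x = ⊤ → GeneralType ℂ L w ∧ StronglyGeneral ℂ x ∧ PseudoPicard x ∧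
        PseudoBrody x ∧ PseudoAbelian x ∧ PseudoTorus x) ∨ Ruled ℂ K := by
  have hess : Algebra.EssFiniteType ℂ K := essFinite hgeny
  rcases reduce_or_ruled hm hN.1 hr ha hy0 hgeny hdeg hy hfac with
    ⟨N1, n1, b, H1, z, hfree, hc⟩ | h
  · left
    intro K' L _ _ _ _ _ _ _ _ _ _ hfr M x hx hgen
    exact hfree.all (K' := K') hP hPi hS hm hr hw (hN.sub hr hm hc) htr hfr hx hgen
  · exact Or.inr h

/-- **Varieties dominated with bounded degree.** -/
theorem below_all (hP : AlgPow) (hPi : PicardOf) (hS : StrongOf) (hm : 2 ≤ m) (hr : 1 ≤ r)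
    (hw : 0 < w) (hN : Bd r n N) {a : Fin (N + 1) → ℂ} (ha : Function.Injective a) {K : Type}
    [Field K] [Algebra ℂ K] (htr : Algebra.trdeg ℂ K = w) {y : Fin (N + 1) → K} (hy0 : y ≠ 0)
    (hgeny : coords ℂ y = ⊤) {H : K[X]} (hdeg : H.natDegree ≤ n)
    (hy : ∀ i, y i ^ m = H.eval (algebraMap ℂ K (a i)))
    (hfac : ∀ q : K[X], 2 ≤ q.natDegree → ¬ q ^ m ∣ H)
    {L : Type} [Field L] [Algebra ℂ L] [Algebra L K] [IsScalarTower ℂ L K]
    [FiniteDimensional L K] (hfr : Module.finrank L K ≤ r) {M : ℕ} {x : Fin (M + 1) → L}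
    (hx : x ≠ 0) (hgen : coords ℂ x = ⊤) :
    [GeneralType ℂ L w, StronglyGeneral ℂ x, PseudoPicard x, PseudoBrody x, PseudoAbelian x,
      PseudoTorus x, ¬ IsUniruled ℂ L w, ¬ Ruled ℂ K].TFAE := by
  have hess : Algebra.EssFiniteType ℂ K := essFinite hgeny
  have hall : ¬ Ruled ℂ K → GeneralType ℂ L w ∧ StronglyGeneral ℂ x ∧ PseudoPicard x ∧
      PseudoBrody x ∧ PseudoAbelian x ∧ PseudoTorus x := by
    intro hR
    rcases all_or_ruled hP hPi hS hm hr hw hN ha htr hy0 hgeny hdeg hy hfac with h | h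
    · exact h K L hfr M x hx hgen
    · exact absurd h hR
  have hneg : Ruled ℂ K → IsUniruled ℂ L w ∧ ¬ GeneralType ℂ L w := fun h =>
    ⟨(Pool.Agent.TH466.QG.neg_below htr h).1, fun h1 =>
      (Pool.Agent.TH466.QG.neg_below (L := L) htr h).2.1 (psef_of_kodGe (kod_of_general h1))⟩
  have huni : IsUniruled ℂ L w ↔ Ruled ℂ K :=
    (Pool.Agent.N115.IM.below_tfae hm hr hw hN.1 ha htr hy0 hgeny hdeg hy hfac hfr).out 2 4
  have hLdim : Algebra.trdeg ℂ L = w := by
    rw [← htr, ← trdeg_add_eq ℂ L (A := K)]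
    have h1 : Algebra.trdeg L K = 0 := by
      rw [trdeg_eq_zero_iff]
      infer_instance
    rw [h1, add_zero]
  tfae_have 8 → 1 := fun h => (hall h).1
  tfae_have 8 → 2 := fun h => (hall h).2.1
  tfae_have 8 → 3 := fun h => (hall h).2.2.1
  tfae_have 8 → 4 := fun h => (hall h).2.2.2.1
  tfae_have 8 → 5 := fun h => (hall h).2.2.2.2.1
  tfae_have 8 → 6 := fun h => (hall h).2.2.2.2.2
  tfae_have 1 → 8 := fun h hR => (hneg hR).2 h
  tfae_have 2 → 1 := fun h => Pool.Agent.TH466.QG.general_of_strongly hx hgen hw hLdim h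
  tfae_have 3 → 4 := brody_of_picard
  tfae_have 4 → 5 := abelian_of_brody
  tfae_have 5 → 4 := Pool.Agent.Y221.PD.brody_of_abelian
  tfae_have 4 → 6 := torus_of_brody
  tfae_have 6 → 8 := fun h hR => Pool.Agent.Y221.PD.not_torus_of_ruled hR hx hgen h
  tfae_have 7 ↔ 8 := not_congr huni
  tfae_finish

end Pool.Agent.N115.AN
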