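import Pool.Agent.N115.AN.Asm2
import Pool.Agent.N115.AN.Top
import Pool.Agent.N115.AN.LocC
import Pool.Agent.N776.AN.RatiosMinf
import Pool.Agent.N568.AN.PolyIneq
import Pool.Agent.N849.AN.LocAB
import Pool.Agent.N152.AN.Growth
import Pool.Agent.N92.AN.ConjF
import Pool.Agent.N92.AN.ConclMinf
import Pool.Agent.N441.AN.Picard
import Pool.Agent.N438.AN.StrongOf

/-!
Polynomials over finite extensions of the field of the meromorphic functions near infinity, whose
values at given constants are `m`-th powers: the main theorem.
-/

set_option autoImplicit false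

namespace Pool.Agent.N115.AN

/-- **The main theorem.** -/
theorem alg_pow' : AlgPow :=
  alg_pow Pool.Agent.N776.AN.ratios_minf loc_a loc_b loc_c
    (Pool.Agent.N152.AN.growth Pool.Agent.N568.AN.poly_ineq) Pool.Agent.N92.AN.conj_f
    Pool.Agent.N92.AN.concl_minf

theorem picard_of' : PicardOf := Pool.Agent.N441.AN8.picard_of

theorem strong_of' : StrongOf := Pool.Agent.N438.AN.strong_of

end Pool.Agent.N115.AN
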