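import Pool.Agent.N115.AN.Stm
import Pool.Agent.N115.IM.Top
import Pool.Agent.Y190.BV.Bez

/-!
Specializations of polynomials without `m`-fold factors.
-/

set_option autoImplicit false

open FF Pool.Agent.W603.LV Pool.Agent.W602.GT Pool.Agent.Y190.BV Polynomial
open Pool.Agent.TH466.QG (Sp)

namespace Pool.Agent.N115.AN

variable {k K E : Type} [Field k] [Field K] [Field E] [Algebra k K] [Algebra k E]
  (S : Sp k K E)

/-- specialization of polynomials -/
def STp (P : K[X]) (P' : E[X]) : Prop := ∀ i, S.T (P.coeff i) (P'.coeff i)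

variable {S} {P Q : K[X]} {P' Q' : E[X]}

theorem STp.add (h : STp S P P') (h' : STp S Q Q') : STp S (P + Q) (P' + Q') := fun i => by
  rw [Polynomial.coeff_add, Polynomial.coeff_add]
  exact S.add (h i) (h' i)

theorem STp.zero : STp S (0 : K[X]) 0 := fun i => by
  rw [Polynomial.coeff_zero, Polynomial.coeff_zero]
  exact S.zero

theorem STp.one : STp S (1 : K[X]) 1 := fun i => by
  rw [Polynomial.coeff_one, Polynomial.coeff_one]
  split_ifs
  · exact S.one
  · exact S.zero

theorem STp.mul (h : STp S P P') (h' : STp S Q Q') : STp S (P * Q) (P' * Q') := fun i => by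
  rw [Polynomial.coeff_mul, Polynomial.coeff_mul]
  exact S.sum _ fun x _ => S.mul (h _) (h' _)

theorem STp.sum {ι : Type} (s : Finset ι) {f : ι → K[X]} {f' : ι → E[X]}
    (h : ∀ i ∈ s, STp S (f i) (f' i)) : STp S (∑ i ∈ s, f i) (∑ i ∈ s, f' i) := fun j => by
  rw [Polynomial.finsetSum_coeff, Polynomial.finsetSum_coeff]
  exact S.sum _ fun x hx => h x hx j

theorem STp.derivative (h : STp S P P') : STp S (derivative P) (derivative P') := fun i => by
  rw [Polynomial.coeff_derivative, Polynomial.coeff_derivative]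
  refine S.mul (h _) ?_
  have h1 := S.const ((i : k) + 1)
  simpa using h1

theorem STp.iterate (h : STp S P P') (j : ℕ) :
    STp S (Polynomial.derivative^[j] P) (Polynomial.derivative^[j] P') := by
  induction j with
  | zero => exact h
  | succ j ih =>
    rw [Function.iterate_succ_apply', Function.iterate_succ_apply']
    exact ih.derivative

theorem STp.ext {P'' : E[X]} (h : STp S P P') (h' : STp S P P'') : P' = P'' :=
  Polynomial.ext fun i => S.ext (h i) (h' i)

theorem STp.eval (h : STp S P P') {n : ℕ} (hn : P.natDegree ≤ n) (hn' : P'.natDegree ≤ n) (c : k) :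
    S.T (P.eval (algebraMap k K c)) (P'.eval (algebraMap k E c)) := by
  rw [Polynomial.eval_eq_sum_range' (Nat.lt_succ_of_le hn),
    Polynomial.eval_eq_sum_range' (Nat.lt_succ_of_le hn')]
  refine S.sum _ fun i _ => S.mul (h i) ?_
  rw [← map_pow, ← map_pow]
  exact S.const _

/-- polynomials specialize if their coefficients do -/
theorem exists_STp (P : K[X]) {Θ : Set K} (hΘ : ∀ i, P.coeff i ∈ Θ)
    (hS : ∀ ϑ ∈ Θ, ∃ z, S.T ϑ z) : ∃ P' : E[X], STp S P P' ∧ P'.natDegree ≤ P.natDegree := by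
  choose c hc using fun i => hS _ (hΘ i)
  refine ⟨∑ i ∈ Finset.range (P.natDegree + 1), C (c i) * X ^ i, fun i => ?_, ?_⟩
  · rw [Polynomial.finsetSum_coeff]
    simp only [Polynomial.coeff_C_mul, Polynomial.coeff_X_pow, mul_ite, mul_one, mul_zero,
      Finset.sum_ite_eq, Finset.mem_range]
    split_ifs with h
    · exact hc i
    · rw [Polynomial.coeff_eq_zero_of_natDegree_lt (by omega)]
      exact S.zero
  · refine Polynomial.natDegree_sum_le_of_forall_le _ _ fun i hi => ?_
    refine (Polynomial.natDegree_C_mul_X_pow_le _ _).trans ?_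
    have := Finset.mem_range.1 hi
    omega

/-- **Openness.** -/
theorem open_free [CharZero k] {n m N : ℕ} (hm : 1 ≤ m) {a : Fin (N + 1) → k} {H : K[X]}
    (hH : H ≠ 0) (hdeg : H.natDegree ≤ n) {y : Fin (N + 1) → K}
    (hy : ∀ i, y i ^ m = H.eval (algebraMap k K (a i)))
    (hfree : ∀ p : K[X], Irreducible p → ¬ p ^ m ∣ H) :
    ∃ Θ : Set K, Θ.Finite ∧ ∀ (E : Type) [Field E] [Algebra k E] (S : Sp k K E),
      (∀ ϑ ∈ Θ, ∃ z, S.T ϑ z) → ∀ y' : Fin (N + 1) → E, (∀ i, S.T (y i) (y' i)) →
      ∃ H' : E[X], H' ≠ 0 ∧ H'.natDegree ≤ n ∧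
        (∀ i, y' i ^ m = H'.eval (algebraMap k E (a i))) ∧
        ∀ p : E[X], Irreducible p → ¬ p ^ m ∣ H' := by
  classical
  have hchK : CharZero K := charZero_of_injective_algebraMap (algebraMap k K).injective
  obtain ⟨A, hA⟩ := bezout hH hfree
  refine ⟨(Set.range fun i => H.coeff i) ∪ ⋃ j : Fin m, Set.range fun i => (A j).coeff i, ?_, ?_⟩
  · have hfin : ∀ Q : K[X], (Set.range fun i => Q.coeff i).Finite := by
      intro Q
      refine ((Finset.range (Q.natDegree + 1)).image (fun i => Q.coeff i) ∪ {0} :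
        Finset K).finite_toSet.subset ?_
      intro x hx
      obtain ⟨i, rfl⟩ := Set.mem_range.1 hx
      rw [Finset.mem_coe, Finset.mem_union, Finset.mem_image, Finset.mem_singleton]
      by_cases h : i ≤ Q.natDegree
      · exact Or.inl ⟨i, Finset.mem_range.2 (by omega), rfl⟩
      · exact Or.inr (Polynomial.coeff_eq_zero_of_natDegree_lt (by omega))
    exact (hfin H).union (Set.finite_iUnion fun j => hfin (A j))
  intro E _ _ S hS y' hy'
  obtain ⟨H', hH', hH'n⟩ := exists_STp (S := S) H (Θ := (Set.range fun i => H.coeff i) ∪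
    ⋃ j : Fin m, Set.range fun i => (A j).coeff i) (fun i => Or.inl ⟨i, rfl⟩) hS
  have hAS : ∀ j : Fin m, ∃ A' : E[X], STp S (A j) A' ∧ A'.natDegree ≤ (A j).natDegree := fun j =>
    exists_STp (S := S) (A j) (Θ := (Set.range fun i => H.coeff i) ∪
      ⋃ j : Fin m, Set.range fun i => (A j).coeff i)
      (fun i => Or.inr (Set.mem_iUnion.2 ⟨j, ⟨i, rfl⟩⟩)) hS
  choose A' hA' _ using hAS
  have h1 : STp S (∑ j : Fin m, A j * derivative^[(j : ℕ)] H)
      (∑ j : Fin m, A' j * derivative^[(j : ℕ)] H') :=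
    STp.sum _ fun j _ => (hA' j).mul (hH'.iterate j)
  rw [hA] at h1
  have h2 : ∑ j : Fin m, A' j * derivative^[(j : ℕ)] H' = 1 := h1.ext STp.one
  have h3 : ∀ p : E[X], Irreducible p → ¬ p ^ m ∣ H' := by
    intro p hp hd
    apply hp.not_isUnit
    apply isUnit_of_dvd_one
    rw [← h2]
    refine Finset.dvd_sum fun j _ => Dvd.dvd.mul_left ?_ _
    have h4 := Polynomial.pow_sub_dvd_iterate_derivative_of_pow_dvd (j : ℕ) hd
    exact (dvd_pow_self p (by omega)).trans h4
  refine ⟨H', ?_, hH'n.trans hdeg, fun i => ?_, h3⟩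
  · rintro rfl
    exact h3 X irreducible_X (dvd_zero _)
  · have h4 := hH'.eval (n := n) hdeg (hH'n.trans hdeg) (a i)
    rw [← hy] at h4
    exact S.ext (S.pow (hy' i) m) h4

end Pool.Agent.N115.AN
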