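import Pool.Agent.Y190.AN.Pow
import Pool.Agent.W619.PQ.Ram
import Pool.Agent.Y221.PD.Defs
import Pool.Agent.TH466.QG.Strong

/-!
Polynomials over finite extensions of the field of the meromorphic functions near infinity, whose
values at given constants are `m`-th powers: the statements of the parts.
-/

set_option autoImplicit false

open FF Pool.Agent.W603.LV Pool.Agent.W602.GT Pool.Agent.Y190.BV Polynomial
open Pool.Agent.Y190.AN (MK exD Minf)
open Pool.Agent.TH466.QG (Sp StronglyGeneral)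

namespace Pool.Agent.N115.AN

/-- All elements which are regular at the place `P` have residues in the field of constants. -/
def Rat {k K : Type} [Field k] [Field K] [Algebra k K] (P : Place k K) : Prop :=
  ∀ x : K, Ge P 0 x → ∃ c : k, Ge P 1 (x - algebraMap k K c)

/-- The values of `δ` are bounded by the `b`-th powers of the greatest values of `F` at the
constants `a i`, at all rational places; `F` is divided by `s` and `δ` by `s ^ b`, and `g` is the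
residue of `F / s`. -/
def Growth {K : Type} [Field K] [Algebra ℂ K] (F : K[X]) (b : ℕ) {p : ℕ}
    (a : Fin (p + 1) → ℂ) (δ : K) : Prop :=
  ∃ C : ℝ, 0 ≤ C ∧ ∀ (P : Place ℂ K) (s : K) (g : ℂ[X]) (D0 : ℂ), Rat P → s ≠ 0 →
    (∀ j, Ge P 1 (F.coeff j / s - algebraMap ℂ K (g.coeff j))) →
    Ge P 1 (δ / s ^ b - algebraMap ℂ K D0) →
    (∀ i, g.eval (a i) ≠ 0) → ∃ i, ‖D0‖ ≤ C * ‖g.eval (a i)‖ ^ b

/-- **AN/1.** -/
def RatiosMinf : Prop :=
  ∀ (r0 : ℝ) (hr0 : 0 < r0) (R : (MK (exD r0 hr0))[X]) (d b : ℕ), R.natDegree = d → 1 ≤ d →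
    Squarefree R → (∀ c : ℂ, R.eval (algebraMap ℂ (MK (exD r0 hr0)) c) ≠ 0) →
    ∀ (p : ℕ) (a : Fin (p + 1) → ℂ), Function.Injective a → (4 + b) * d < p + 1 →
    ∀ δ : MK (exD r0 hr0), δ ≠ 0 →
    (∀ P : Place ℂ (MK (exD r0 hr0)), Rat P → b * cnt P R ≤ P.ord δ) →
    (∀ (P : Place ℂ (MK (exD r0 hr0))) (i : Fin (p + 1)), Rat P → ct P R (a i) = 1 →
      b * cnt P R + 1 ≤ P.ord δ) →
    Growth R b a δ →
    ∀ i, R.eval (algebraMap ℂ (MK (exD r0 hr0)) (a i)) /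
      R.eval (algebraMap ℂ (MK (exD r0 hr0)) (a 0)) ∈ Minf r0 hr0

/-- **AN/2.** -/
def PolyIneq : Prop :=
  ∀ (q D : ℕ) (a : Fin (q + 1) → ℂ) (j0 : Fin (q + 1)) (z : ℂ), Function.Injective a → D ≤ q →
    ∃ C : ℝ, 0 ≤ C ∧ ∀ (ι : Type) (T : Finset ι) (A : ι → ℂ[X]) (B : ℂ[X]),
      ((∏ t ∈ T, A t) * B).natDegree ≤ D → (∀ t ∈ T, (A t).eval (a j0) = 1) →
      B.eval (a j0) = 1 →
      ∃ j, ∏ t ∈ T, max 1 ‖(A t).eval z‖ ≤ C * ‖((∏ t ∈ T, A t) * B).eval (a j)‖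

/-- `H` is `u` times the product of the powers `p ^ e p` of the distinct polynomials `p` in `T` and
`T'`; those in `T` are irreducible, monic, with `1 ≤ e p < m`, without roots in `k`, and their
product divides `F`; those in `T'` are of the form `X - c`. -/
structure Fac {k M : Type} [Field k] [Field M] [Algebra k M] (m : ℕ) (F H : M[X]) (u : M)
    (T T' : Finset M[X]) (e : M[X] → ℕ) : Prop where
  unit : u ≠ 0
  eq : H = C u * ((∏ p ∈ T, p ^ e p) * ∏ p ∈ T', p ^ e p)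
  irr : ∀ p ∈ T, Irreducible p ∧ p.Monic ∧ 1 ≤ e p ∧ e p < m
  nroot : ∀ p ∈ T, ∀ c : k, p.eval (algebraMap k M c) ≠ 0
  dvd : (∏ p ∈ T, p) ∣ F
  cst : ∀ p ∈ T', ∃ c : k, p = X - C (algebraMap k M c)

/-- **AN/3 (a).** -/
def LocA : Prop :=
  ∀ (k M : Type) [Field k] [Field M] [Algebra k M] [CharZero k] [IsAlgClosed k] (m N : ℕ),
    1 ≤ m → ∀ (a : Fin (N + 1) → k) (F H : M[X]) (u : M) (T T' : Finset M[X]) (e : M[X] → ℕ),
    Fac (k := k) m F H u T T' e → F ≠ 0 → (∀ c : k, F.eval (algebraMap k M c) ≠ 0) →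
    ∀ y : Fin (N + 1) → M, (∀ i, y i ^ m = H.eval (algebraMap k M (a i))) →
    ∀ i0, y i0 = 1 → ∀ (W : Place k M) (i : Fin (N + 1)),
      Ge W (cnt W F) (F.eval (algebraMap k M (a i0)) * y i)

/-- **AN/3 (b).** -/
def LocB : Prop :=
  ∀ (k M : Type) [Field k] [Field M] [Algebra k M] [CharZero k] [IsAlgClosed k] (m n N : ℕ),
    2 ≤ m → n ≤ N → ∀ a : Fin (N + 1) → k, Function.Injective a →
    ∀ (F H : M[X]) (u : M) (T T' : Finset M[X]) (e : M[X] → ℕ),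
    Fac (k := k) m F H u T T' e → H ≠ 0 → H.natDegree ≤ n →
    ∀ y : Fin (N + 1) → M, (∀ i, y i ^ m = H.eval (algebraMap k M (a i))) →
    ∀ (W : Place k M) (i : Fin (N + 1)), y i ≠ 0 → ct W (∏ p ∈ T, p) (a i) ≠ 1

open Classical in
/-- `δ` is the product of the differences of the conjugates of `f`; it has `b` factors. -/
def IsDisc {K M : Type} [Field K] [Field M] [Algebra K M] (f : M) (b : ℕ) (δ : K) : Prop :=
  ∃ S : Finset M, (∀ x, x ∈ S ↔ ∃ g : M ≃ₐ[K] M, g f = x) ∧ b = S.offDiag.card ∧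
    algebraMap K M δ = ∏ x ∈ S.offDiag, (x.1 - x.2)

/-- **AN/4.** -/
def LocC : Prop :=
  ∀ (k K M : Type) [Field k] [Field K] [Field M] [Algebra k K] [Algebra k M] [Algebra K M]
    [IsScalarTower k K M] [CharZero k] [IsAlgClosed k] [FiniteDimensional K M] [IsGalois K M]
    (f : M) (b : ℕ) (δ : K), IsDisc f b δ →
    (∀ g : M ≃ₐ[K] M, (∀ h : M ≃ₐ[K] M, g (h f) = h f) → g = 1) →
    ∀ (P : Place k K) (c0 : ℤ),
      (∀ (W : Place k M) (e : ℕ), Over W P e → ∀ g : M ≃ₐ[K] M, Ge W (e * c0) (g f)) →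
      b * c0 ≤ P.ord δ ∧ (b * c0 + 1 ≤ P.ord δ ∨ ∃ W : Place k M, Over W P 1)

/-- **AN/5.** -/
def GrowthLemma : Prop :=
  ∀ (K M : Type) [Field K] [Field M] [Algebra ℂ K] [Algebra ℂ M] [Algebra K M]
    [IsScalarTower ℂ K M] [FiniteDimensional K M] [IsGalois K M] (m N q : ℕ)
    (a : Fin (N + 1) → ℂ) (a' : Fin (q + 1) → ℂ), 1 ≤ m → Function.Injective a' →
    ∀ (i0 : Fin (N + 1)) (j0 : Fin (q + 1)), a i0 = a' j0 →
    ∀ F : K[X], F ≠ 0 → F.natDegree ≤ q → (∀ c : ℂ, F.eval (algebraMap ℂ K c) ≠ 0) →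
    ∀ (H : M[X]) (y : Fin (N + 1) → M), (∀ i, y i ^ m = H.eval (algebraMap ℂ M (a i))) →
    y i0 = 1 →
    (∀ g : M ≃ₐ[K] M, ∃ u T T' e, Fac (k := ℂ) m (F.map (algebraMap K M))
      (H.map (g : M →+* M)) u T T' e) →
    ∀ (lam : Fin (N + 1) → ℂ) (δ : K) (b : ℕ),
      IsDisc (algebraMap K M (F.eval (algebraMap ℂ K (a i0))) *
        ∑ i, algebraMap ℂ M (lam i) * y i) b δ → Growth F b a' δ

/-- **AN/6.** -/
def ConjF : Prop :=
  ∀ (k K M : Type) [Field k] [Field K] [Field M] [Algebra k K] [Algebra k M] [Algebra K M]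
    [IsScalarTower k K M] [CharZero k] [IsAlgClosed k] [FiniteDimensional K M] [IsGalois K M]
    (r n m N : ℕ) (a : Fin (N + 1) → k), Function.Injective a → n ≤ N → 1 ≤ m →
    ∀ (H : M[X]) (y : Fin (N + 1) → M), H ≠ 0 → H.natDegree ≤ n →
    (∀ i, y i ^ m = H.eval (algebraMap k M (a i))) →
    (∀ p : M[X], Irreducible p → ¬ p ^ m ∣ H) →
    (Set.range fun (g : M ≃ₐ[K] M) (i : Fin (N + 1)) => g (y i)).ncard ≤ r →
    ∃ F : K[X], F.Monic ∧ Squarefree F ∧ (∀ c : k, F.eval (algebraMap k K c) ≠ 0) ∧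
      F.natDegree + r * Nat.card {i // y i = 0} ≤ r * n ∧
      (∀ g : M ≃ₐ[K] M, ∃ u T T' e, Fac (k := k) m (F.map (algebraMap K M))
        (H.map (g : M →+* M)) u T T' e) ∧
      ∀ p : M[X], Irreducible p → p ∣ F.map (algebraMap K M) →
        ∃ g : M ≃ₐ[K] M, p ∣ H.map (g : M →+* M)

/-- **AN/7.** -/
def ConclMinf : Prop :=
  ∀ (r0 : ℝ) (hr0 : 0 < r0) (M : Type) [Field M] [Algebra (MK (exD r0 hr0)) M] [Algebra ℂ M]
    [IsScalarTower ℂ (MK (exD r0 hr0)) M] (m N q : ℕ) (a : Fin (N + 1) → ℂ)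
    (a' : Fin (q + 1) → ℂ), 1 ≤ m → Function.Injective a' →
    ∀ F : (MK (exD r0 hr0))[X], F.Monic → F.natDegree ≤ q →
    (∀ c : ℂ, F.eval (algebraMap ℂ (MK (exD r0 hr0)) c) ≠ 0) →
    (∀ i, F.eval (algebraMap ℂ (MK (exD r0 hr0)) (a' i)) /
      F.eval (algebraMap ℂ (MK (exD r0 hr0)) (a' 0)) ∈ Minf r0 hr0) →
    ∀ (H : M[X]) (u : M) (T T' : Finset M[X]) (e : M[X] → ℕ),
      Fac (k := ℂ) m (F.map (algebraMap (MK (exD r0 hr0)) M)) H u T T' e →
    ∀ y : Fin (N + 1) → M, (∀ i, y i ^ m = H.eval (algebraMap ℂ M (a i))) →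
    ∀ i0, y i0 = 1 → ∀ i, IsAlgebraic (Minf r0 hr0) (y i)

/-- **The main theorem.** -/
def AlgPow : Prop :=
  ∀ (r0 : ℝ) (hr0 : 0 < r0) (E : Type) [Field E] [Algebra (MK (exD r0 hr0)) E] [Algebra ℂ E]
    [IsScalarTower ℂ (MK (exD r0 hr0)) E] [FiniteDimensional (MK (exD r0 hr0)) E]
    (r n m N : ℕ), Module.finrank (MK (exD r0 hr0)) E ≤ r → 2 ≤ m →
    (r * (r - 1) + 4) * (r * n) < N + 1 → ∀ a : Fin (N + 1) → ℂ, Function.Injective a →
    ∀ H : E[X], H ≠ 0 → H.natDegree ≤ n →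
    ∀ y : Fin (N + 1) → E, (∀ i, y i ^ m = H.eval (algebraMap ℂ E (a i))) →
    (∀ p : E[X], Irreducible p → ¬ p ^ m ∣ H) →
    ∀ i j, y j ≠ 0 → IsAlgebraic (Minf r0 hr0) (y i / y j)

/-- **AN/8.** Varieties are pseudo-Picard hyperbolic if the values of enough functions at the
algebroid points near infinity are algebraic over the functions which are meromorphic at
infinity. -/
def PicardOf : Prop :=
  ∀ (K' L : Type) [Field K'] [Field L] [Algebra ℂ K'] [Algebra ℂ L] [Algebra L K']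
    [IsScalarTower ℂ L K'] [FiniteDimensional L K'] (r n : ℕ), Module.finrank L K' ≤ r →
    ∀ (y : Fin (n + 1) → K') (i0 : Fin (n + 1)), y i0 ≠ 0 →
    Algebra.IsAlgebraic (coords ℂ y) K' →
    (∃ Θ : Set K', Θ.Finite ∧ ∀ (E : Type) [Field E] [Algebra (MK (exD 1 one_pos)) E]
      [Algebra ℂ E] [IsScalarTower ℂ (MK (exD 1 one_pos)) E]
      [FiniteDimensional (MK (exD 1 one_pos)) E], Module.finrank (MK (exD 1 one_pos)) E ≤ r →
      ∀ S : Sp ℂ K' E, (∀ ϑ ∈ Θ, ∃ z, S.T ϑ z) → ∀ y' : Fin (n + 1) → E,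
      (∀ i, S.T (y i) (y' i)) → ∀ i, IsAlgebraic (Minf 1 one_pos) (y' i / y' i0)) →
    ∀ (M : ℕ) (x : Fin (M + 1) → L), x ≠ 0 → coords ℂ x = ⊤ → Pool.Agent.Y221.PD.PseudoPicard x

/-- **AN/9.** Varieties are strongly of general type if the general specializations of a
generically finite cover are covers of bounded degree of varieties of general type only. -/
def StrongOf : Prop :=
  ∀ (k K' L : Type) [Field k] [CharZero k] [IsAlgClosed k] [Field K'] [Field L] [Algebra k K']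
    [Algebra k L] [Algebra L K'] [IsScalarTower k L K'] [FiniteDimensional L K'] (r n : ℕ),
    Module.finrank L K' ≤ r → ∀ (y : Fin (n + 1) → K') (i0 : Fin (n + 1)), y i0 ≠ 0 →
    Algebra.IsAlgebraic (coords k y) K' →
    (∃ Θ : Set K', Θ.Finite ∧ ∀ (K'' : Type) [Field K''] [Algebra k K''] (S : Sp k K' K''),
      (∀ ϑ ∈ Θ, ∃ z, S.T ϑ z) → ∀ y' : Fin (n + 1) → K'', (∀ i, S.T (y i) (y' i)) →
      ∀ w' : ℕ, 1 ≤ w' → Algebra.trdeg k K'' = w' → Algebra.EssFiniteType k K'' →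
      Algebra.IsAlgebraic (coords k y') K'' →
      ∀ (E : Type) [Field E] [Algebra k E] [Algebra E K''] [IsScalarTower k E K'']
        [FiniteDimensional E K''], Module.finrank E K'' ≤ r → GeneralType k E w') →
    ∀ (M : ℕ) (x : Fin (M + 1) → L), x ≠ 0 → coords k x = ⊤ → StronglyGeneral k x

end Pool.Agent.N115.AN
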